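import Pool.Agent.P.MP_92d394_lc.Y.Fin

namespace Pool.Agent.Results.MP_92d394_lc.CycleCut

open Pool.Agent.P.MP_92d394_lc

theorem result (n : ℕ) (hn : 3 ≤ n) (y : Fin n → Fin n → ℝ) (hy : y ∈ SubP (Fin n))
    (h : IsCycleCut y) (c : Fin n → Fin n → ℝ) (hc : IsMetric c) :
    ∃ x ∈ SubP (Fin n), (∀ u v, ∃ k : ℤ, x u v = k) ∧ dot c x ≤ 10 / 7 * dot c y :=
  Y.ten_sevenths (by simpa using hn) hy h hc

end Pool.Agent.Results.MP_92d394_lc.CycleCut
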