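import Pool.Agent.P.MP_92d394_lc.Q11

namespace Pool.Agent.Results.MP_92d394_lc.TriSquarePoints

open Pool.Agent.P.MP_92d394_lc

theorem result (n : ℕ) (hn : 6 ≤ n) :
    ∃ x ∈ (SubP (Fin n)).extremePoints ℝ, suppCard x = n + 3 ∧ gap x < 4 / 3 ∧
      ∀ y ∈ SubP (Fin n), IsTS y → gap y ≤ gap x :=
  tri_square_points n hn

end Pool.Agent.Results.MP_92d394_lc.TriSquarePoints
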